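import Pool.Agent.V7H53.GG.CritTot

/-!
# MP_a4986b_nt: one level decides whether `μ` vanishes in a Galois extension of number fields

Let `p` be an odd prime, and let `R m` be the subfield of degree `p ^ m` of the field of the roots of
unity of order `p ^ (m + 1)`. Number fields are subfields `F` of finite degree of the field of
algebraic numbers, and `F ⊔ R m` is the `m`-th layer of the cyclotomic `ℤ_p`-extension of `F` (up to
a shift). Let `S` be a set of prime numbers different from `p`; for the problem, `S = ∅`. Let `r_m(F)`
be the `p`-rank of the Galois group of the maximal abelian extension of `F ⊔ R m` unramified at the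
finite primes outside `S` (archimedean places do not matter, as `p` is odd). For `S = ∅` this is the
`p`-rank of the class group of `F ⊔ R m`. `PRankLe` says that `r_m(F)` is at most `r`, and `PRankGe`
that it is at least `r`.

By Nakayama's lemma, for `S = ∅`, `μ = 0` for the cyclotomic `ℤ_p`-extension of `F` if and only if the
numbers `r_m(F)` are bounded (`Bdd p ∅ R F`). This and class field theory are not used and not proved
here.

Let `k ≤ F ≤ N` be number fields with `F / k` and `N / k` Galois (`StableOver`), let `F'` be a largest
field between `F` and `N` which is Galois over `k` and of degree a power of `p` over `F` (`IsPLayer`),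
and let `d` be a lower bound for the dimensions of the irreducible representations of `Gal(N / k)`
over `𝔽_p` which are not trivial on `Gal(N / F)` (`DimGe`; the order of the group may be divisible by
`p`). Let `m₀` be a number such that `[N : ℚ] < p ^ (m₀ + 1)`, or such that `N` is contained in a finite
Galois extension of `ℚ` of degree not divisible by `p ^ (m₀ + 1)` (`BaseLevel`). `GapFrom p S R F' N d m₀ m`
is the inequality

  `r_m(N) ≥ r_m(F') + d ([N R_m : N] - [N R_m₀ : N])`.

The proof uses that the inertia groups above `p` map onto the Galois group of the roots of unity of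
order a power of `p`; so the primes above `p` are totally ramified in the tower of `N` from the level
`m₀` on.
-/

set_option autoImplicit false

namespace Pool.Agent.Results.MP_a4986b_nt.ClassGroupGapH53

open Module IntermediateField Pool.Agent.Q60.MU Pool.Agent.V7H44.MF Pool.Agent.V7H53.TR
open Pool.Agent.V7H53.GG

/-- **One level decides.** Let `S` be a set of primes different from `p`, let `k ≤ F ≤ N` be number
fields, `F / k` and `N / k` Galois, and let `m₀` be as above.

(1) There is a largest layer `F'` of `p`-power degree over `F`, Galois over `k`, in `N`.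

(2) `MainPartFrom`. For all such `F'` and `d` as above:
(a) if `r_m(N) < r_m(F') + d ([N R_m : N] - [N R_m₀ : N])` for a single level `m > m₀`, then there is a
  constant `b` with `r_M(N) ≤ r_M(F') + b` for all levels `M` (no assumption on `F`);
(b) if `d > 0`, then the ranks of `N` are bounded if and only if those of `F` are bounded and
  `r_m(N) < r_m(F') + d ([N R_m : N] - [N R_m₀ : N])` for at least one `m > m₀`;
(c) if the ranks of `F` are bounded, but not those of some subfield `E` of `N`, then
  `r_m(N) ≥ r_m(F') + d ([N R_m : N] - [N R_m₀ : N])` for all levels `m > m₀`;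
(d) if the ranks of `F` are bounded and `r_m(N) < d ([N R_m : N] - [N R_m₀ : N])` for a single level
  `m > m₀`, then the ranks of all the subfields of `N` are bounded.

(3) `AbelianPart`. Given the theorem of Ferrero and Washington (the ranks of the abelian number fields
are bounded; stated as a hypothesis), let `F` be abelian over `ℚ` (for instance `F = ℚ`). Then for each
subfield `E` of `N` the ranks are bounded, unless
`r_m(N) ≥ r_m(F') + d ([N R_m : N] - [N R_m₀ : N])` for all levels `m > m₀`; and for `d > 0` the ranks
of `N` are bounded if and only if this inequality fails for some `m > m₀`.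

(4) `DimPart`. The value `d = 1` is always allowed. If `Gal(N / F)` is perfect, then `F' = F` and
`d = 2` are allowed. If no field strictly between `F` and `N` is Galois over `k` and the prime `ℓ ≠ p`
divides `[N : F]`, then `F' = F` is allowed and `d` can be the order of `p` modulo `ℓ`. -/
theorem result (p : ℕ) [Fact p.Prime] (hp2 : p ≠ 2) (S : Set ℕ) (hS : ∀ ℓ ∈ S, ℓ.Prime)
    (hpS : p ∉ S) (R : ℕ → IntermediateField ℚ Qb) (hR : IsCyclotomicTower p R)
    (k F N : IntermediateField ℚ Qb) (h : IsGaloisPair k F N) (m₀ : ℕ) (hm₀ : BaseLevel p N m₀) :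
    (∃ F', IsPLayer p k F N F') ∧
    (∀ F', IsPLayer p k F N F' → ∀ d, DimGe p k F N d →
      MainPartFrom p S R F N F' d m₀ ∧ AbelianPart p S R F N F' d m₀) ∧
    DimPart p k F N := by
  obtain ⟨hN, hkF, hFN, hFk, hNk⟩ := h
  have gap : ∀ F', IsPLayer p k F N F' → ∀ d, DimGe p k F N d → Bdd p S R F → ∀ E ≤ N,
      ¬ Bdd p S R E → ∀ m > m₀, GapFrom p S R F' N d m₀ m := by
    intro F' hF' d hd hF E hE hnE m hm
    by_contra hgap
    exact hnE (bdd_sub hR hN hE
      ((layer_level_from hp2 hS hpS hR hN hkF hNk hm₀ hF' hd hm hgap).bdd
        (layer_bdd hp2 hR hN hkF hF' hF)))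
  have hex : ∃ F', IsPLayer p k F N F' := by
    obtain ⟨F', h1, h2, h3, h4, h5⟩ := exists_layer (p := p) hN hFN hFk
    exact ⟨F', h1, h2, h3, h4, h5⟩
  refine ⟨hex, fun F' hF' d hd => ⟨⟨fun m hm h =>
    layer_level_from hp2 hS hpS hR hN hkF hNk hm₀ hF' hd hm h, fun hd0 =>
    criterion_from hp2 hS hpS hR hN hkF hNk hm₀ hF' hd hd0, gap F' hF' d hd,
    fun hF m hm r n n₀ hn hn₀ hr hlt E hE =>
    bdd_sub hR hN hE (numerical_from hp2 hS hpS hR hN hkF hNk hm₀ hF' hd hF hm hn hn₀ hr hlt)⟩,
    fun hab hFa => ?_⟩,
    dim_one k F N, fun hper => ⟨IsPLayer.self hFN hFk (noPLayer_of_perfect hkF hper hN),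
    dim_two hkF hFN hper hN⟩, fun hmin ℓ hℓ hne hdvd => ?_⟩
  · have hF : Bdd p S R F := hab F (fd_of_le hN hFN) hFa
    refine ⟨fun E hE => ?_, fun hd0 => ?_⟩
    · by_cases hEb : Bdd p S R E
      · exact Or.inl hEb
      · exact Or.inr (gap F' hF' d hd hF E hE hEb)
    · rw [criterion_from hp2 hS hpS hR hN hkF hNk hm₀ hF' hd hd0]
      exact ⟨fun h => h.2, fun h => ⟨hF, h⟩⟩
  · obtain ⟨h1, h2⟩ := minimal_layer (p := p) hkF hFN hNk hFk hN hmin hℓ hne hdvd
    exact ⟨IsPLayer.self hFN hFk h1, h2⟩

end Pool.Agent.Results.MP_a4986b_nt.ClassGroupGapH53
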