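import Pool.Agent.V7H44.MU.One

/-!
# MP_a4986b_nt: one place decides
-/

set_option autoImplicit false

namespace Pool.Agent.Results.MP_a4986b_nt.OnePlaceH44

open Module IntermediateField Pool.Agent.Q60.MU Pool.Agent.V7H44.MF Pool.Agent.V7H44.MU
open Pool.Agent.V7H44.DVS (NonSplit InPExtension OpenNormal)
open scoped Pointwise

/-- The place `B` of `M` has only one extension to `F ⊇ M`: the places of `ℚ^al` which are conjugate
to `B` over `M` are conjugate to `B` over `F`. -/
def OnePlace (M F : IntermediateField ℚ Qb) (B : ValuationSubring Qb) : Prop :=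
  ∀ σ ∈ M.fixingSubgroup, ∃ τ ∈ F.fixingSubgroup, σ • B = τ • B

/-- **The vanishing of `μ` by one place.**

Let `p` be a prime, `M` a number field (inside the field `ℚ^al` of the algebraic numbers), `S` a set
of finite places of `M` (a set of valuation rings of `ℚ^al`, stable under `Gal(ℚ^al/M)`), and `B` a
finite place, in `S` or not, above `p` or not. Suppose that `B` does not split completely in any cyclic
extension of `M` of degree `p` which is unramified at the finite places outside `S` (`NonSplit`; if `S`
is finite this is a finite computation, with ray class groups: there are finitely many such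
extensions). Let `F` be any field between `M` and a finite Galois `p`-extension of `M` which is
unramified at the finite places outside `S`. No other property of `M`, `F` or `S` is used: `M` need not be abelian
or CM, `p` may divide its class number and its degree, and there may be several places above `p`.

(1) The hypothesis is equivalent to: `B` has only one extension to each of these fields `F`. The
hypothesis holds also for `F`.

(2) Every finite Galois `p`-extension of `F` which is unramified at all finite places is cyclic, and
its Galois group is generated by an element of the decomposition group of `B`. By class field theory: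
the `p`-class group of `F` is cyclic, generated by the `p`-part of the class of the prime under `B`.
(`DegLe p F p`: the order of `Cl(F) / p` is at most `p`.)

(3) Suppose that `S` contains the places above `p`. Then the fields `F ⊔ R m`, where `R m` is the
layer of degree `p ^ m` of the cyclotomic `ℤ_p`-extension of `ℚ`, are of the same kind, so that by (2)
their `p`-class groups are cyclic, and `μ = 0` (`MuZero`) for `F` and for all the subfields of `F`
(which need not contain `M`).

So Iwasawa's conjecture holds for infinitely many fields (the fields `F` and their subfields) by a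
finite computation with one field `M`, whatever their Galois groups are. If `M` has only one place
above `p`, `S` consists of this place and `B` lies above it, then the hypothesis says that the `p`-part
of the class group of `M` is generated by the class of the prime above `p`; this is the case considered
by Iwasawa. -/
theorem result (p : ℕ) [Fact p.Prime] (M : IntermediateField ℚ Qb) (hM : FiniteDimensional ℚ M)
    (S : Set (ValuationSubring Qb)) (hS : IsPlaceSet M S) (B : ValuationSubring Qb) (ℓ : ℕ)
    (hℓ : ℓ.Prime) (hB : (ℓ : Qb) ∈ B.nonunits) :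
    (NonSplit p M.fixingSubgroup (outside S) (dec B : Set Gal(Qb/ℚ)) ↔
      ∀ F : IntermediateField ℚ Qb,
        InPExtension p M.fixingSubgroup F.fixingSubgroup (outside S) → OnePlace M F B) ∧
    (NonSplit p M.fixingSubgroup (outside S) (dec B : Set Gal(Qb/ℚ)) →
      ∀ F : IntermediateField ℚ Qb,
        InPExtension p M.fixingSubgroup F.fixingSubgroup (outside S) →
        FiniteDimensional ℚ F ∧
        NonSplit p F.fixingSubgroup (outside S) (dec B : Set Gal(Qb/ℚ)) ∧
        (∀ W : Subgroup Gal(Qb/ℚ), Unramified p F.fixingSubgroup W →
          ∃ σ₀ ∈ F.fixingSubgroup, σ₀ ∈ dec B ∧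
            ∀ σ ∈ F.fixingSubgroup, ∃ j : ℤ, σ₀ ^ (-j) * σ ∈ W) ∧
        DegLe p F p ∧
        ∀ R : ℕ → IntermediateField ℚ Qb, IsCyclotomicTower p R →
          (∀ A : ValuationSubring Qb, (p : Qb) ∈ A.nonunits → A ∈ S) →
          (∀ m, InPExtension p M.fixingSubgroup (F ⊔ R m).fixingSubgroup (outside S)) ∧
          ∀ E ≤ F, MuZero p R E) := by
  have hp : p.Prime := Fact.out
  have hMo := M.fixingSubgroup_isOpen
  have hfin : ∀ F : IntermediateField ℚ Qb,
      InPExtension p M.fixingSubgroup F.fixingSubgroup (outside S) → FiniteDimensional ℚ F := by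
    intro F hF
    obtain ⟨-, N, a, hNF, hN, -⟩ := hF
    exact (InfiniteGalois.isOpen_iff_finite F).1 (Subgroup.isOpen_mono hNF hN.isOpen)
  refine ⟨⟨fun h F hF σ hσ => unique_place hMo h hF σ hσ, ?_⟩, ?_⟩
  · intro h V hV hu
    by_contra hD
    push Not at hD
    have hVo : IsOpen (V : Set Gal(Qb/ℚ)) := hV.isOpen
    have hfix := fix_fixed hVo
    have h1 := h (fixedField V) (by
      rw [hfix]
      exact ⟨hV.le, V, 1, le_rfl, by rw [pow_one]; exact hV, hu⟩)
    have h2 : M.fixingSubgroup ≤ V := by
      intro σ hσ
      obtain ⟨τ, hτ, h3⟩ := h1 σ hσ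
      rw [hfix] at hτ
      have h4 : τ⁻¹ * σ ∈ dec B := by
        rw [mem_dec, mul_smul, h3, inv_smul_smul]
      have h5 := hD _ (mul_mem (inv_mem (hV.le hτ)) hσ) h4
      have h6 := mul_mem hτ h5
      rwa [mul_inv_cancel_left] at h6
    have h3 := hV.index
    rw [Subgroup.relIndex_eq_one.2 h2] at h3
    exact hp.one_lt.ne h3
  · intro h F hF
    have hFd := hfin F hF
    have hFo := F.fixingSubgroup_isOpen
    have hF' := Pool.Agent.V7H44.DVS.inherit hMo (outside_conj hS) h hF
    refine ⟨hFd, hF', fun W hW => cyclic_quot hFo hℓ hB hF' hW,
      (rankLe_iff F p).1 (rankLe hFo hℓ hB hF'), fun R hR hp' => ?_⟩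
    have hm := tower_ext hR hp' hF
    refine ⟨hm, fun E hE => ?_⟩
    have hEd : FiniteDimensional ℚ E := Submodule.finiteDimensional_of_le
      (S₁ := Subalgebra.toSubmodule E.toSubalgebra)
      (S₂ := Subalgebra.toSubmodule F.toSubalgebra) hE
    have hEF : F.fixingSubgroup ≤ E.fixingSubgroup := fixingSubgroup_le hE
    have h0 : F.fixingSubgroup.relIndex E.fixingSubgroup ≠ 0 := by
      intro h0
      have h1 := Subgroup.relIndex_mul_index hEF
      rw [h0, zero_mul] at h1
      exact index_ne_zero' F h1.symm
    rw [← mu_iff (tower_finite hR)]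
    refine ⟨p * F.fixingSubgroup.relIndex E.fixingSubgroup, fun m => ?_⟩
    have hFm := hfin _ (hm m)
    have h1 := rankLe (F ⊔ R m).fixingSubgroup_isOpen hℓ hB
      (Pool.Agent.V7H44.DVS.inherit hMo (outside_conj hS) h (hm m))
    rw [fixingSubgroup_sup] at h1
    have h2 : (F.fixingSubgroup ⊓ (R m).fixingSubgroup).relIndex
        (E.fixingSubgroup ⊓ (R m).fixingSubgroup) ≤
          F.fixingSubgroup.relIndex E.fixingSubgroup := by
      have h3 : (F.fixingSubgroup ⊓ (R m).fixingSubgroup).relIndex
          (E.fixingSubgroup ⊓ (R m).fixingSubgroup) =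
          F.fixingSubgroup.relIndex (E.fixingSubgroup ⊓ (R m).fixingSubgroup) := by
        rw [← Subgroup.inf_relIndex_right, ← Subgroup.inf_relIndex_right F.fixingSubgroup]
        congr 1
        ext x
        simp only [Subgroup.mem_inf]
        tauto
      rw [h3]
      exact Subgroup.relIndex_le_of_le_right inf_le_left h0
    have h4 : (F.fixingSubgroup ⊓ (R m).fixingSubgroup).relIndex
        (E.fixingSubgroup ⊓ (R m).fixingSubgroup) ≠ 0 := by
      intro h5
      have h6 := Subgroup.relIndex_mul_index
        (inf_le_inf_right (R m).fixingSubgroup hEF)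
      rw [h5, zero_mul, ← fixingSubgroup_sup] at h6
      exact index_ne_zero' (F ⊔ R m) h6.symm
    have h7 : IsOpen ((F.fixingSubgroup ⊓ (R m).fixingSubgroup : Subgroup Gal(Qb/ℚ)) :
        Set Gal(Qb/ℚ)) := by
      rw [← fixingSubgroup_sup]
      exact (F ⊔ R m).fixingSubgroup_isOpen
    exact (RankLe.of_le (inf_le_inf_right _ hEF) h7 h4 h1).mono (Nat.mul_le_mul_left p h2)

end Pool.Agent.Results.MP_a4986b_nt.OnePlaceH44
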