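import Pool.Agent.V7H53.SP.Port

/-!
# MP_a4986b_nt: one level of the class groups modulo the primes above `p` decides

Let `p` be any prime number (`p = 2` is allowed), and let `R m` be the layer of degree `p ^ m` of the
cyclotomic `ℤ_p`-extension of `ℚ`, that is, the totally real subfield of degree `p ^ m` of the field
of the roots of unity of order `p ^ (m + 2)`. For a number field `E` let `r_m(E)` be the `p`-rank of the
Galois group of the maximal abelian extension of `E ⊔ R m` unramified at all finite primes in which all
primes above `p` split completely; if `p` is odd or `E` has no real embedding this is the `p`-rank of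
the class group of `E ⊔ R m` modulo the classes of the primes above `p`. `SRankLe p` says that it is at
most `r`, and `SRankGe p` that it is at least `r`. The group `X` of the problem is finitely generated over
`ℤ_p` if and only if its quotient by the decomposition groups above `p` is (there are finitely many of
them, and their images are procyclic), so by Nakayama's lemma if and only if the numbers `r_m(E)` are
bounded (`SBdd p R E`). This and class field theory are not used and not proved here.

Let `k ≤ F ≤ N` be number fields with `F / k` and `N / k` Galois, let `F'` be a largest field between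
`F` and `N` which is Galois over `k` and of degree a power of `p` over `F` (`IsPLayer`), and let `d` be a
lower bound for the dimensions of the irreducible representations of `Gal(N / k)` over `𝔽_p` which are
not trivial on `Gal(N / F)` (`DimGe`; the order of the group may be divisible by `p`). Let `m₀` be a
number such that `[N : ℚ] < p ^ (m₀ + 1)`, or such that `N` is contained in a finite Galois extension of
`ℚ` of degree not divisible by `p ^ (m₀ + 1)` (`BaseLevel`). `SGapFrom p R F' N d m₀ m` is the inequality

  `r_m(N) ≥ r_m(F') + d ([N R_m : N] - [N R_m₀ : N])`.
-/

set_option autoImplicit false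

namespace Pool.Agent.Results.MP_a4986b_nt.SplitLayerGapH53

open Module IntermediateField Pool.Agent.Q60.MU Pool.Agent.V7H44.MF Pool.Agent.V7H53.TR
open Pool.Agent.V7H53.GG Pool.Agent.V7H53.GP Pool.Agent.V7H53.SP

/-- **One level decides, for all primes `p`.** Let `k ≤ F ≤ N` be number fields, `F / k` and `N / k`
Galois, and let `m₀` be as above.

(1) There is a largest layer `F'` of `p`-power degree over `F`, Galois over `k`, in `N`.

(2) `SMainPart`. For all such `F'` and `d` as above:
(a) if `r_m(N) < r_m(F') + d ([N R_m : N] - [N R_m₀ : N])` for a single level `m > m₀`, then there is a
  constant `b` with `r_M(N) ≤ r_M(F') + b` for all levels `M` (no assumption on `F`);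
(b) if `d > 0`, then the ranks of `N` are bounded if and only if those of `F` are bounded and
  `r_m(N) < r_m(F') + d ([N R_m : N] - [N R_m₀ : N])` for at least one `m > m₀`;
(c) if the ranks of `F` are bounded, but not those of some subfield `E` of `N`, then
  `r_m(N) ≥ r_m(F') + d ([N R_m : N] - [N R_m₀ : N])` for all levels `m > m₀`;
(d) if the ranks of `F` are bounded and `r_m(N) < d ([N R_m : N] - [N R_m₀ : N])` for a single level
  `m > m₀`, then the ranks of all the subfields of `N` are bounded.

(3) `SAbelianPart`. Given the theorem of Ferrero and Washington (the ranks of the abelian number fields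
are bounded; stated as a hypothesis), let `F` be abelian over `ℚ`. Then for each subfield `E` of `N`
the ranks are bounded, unless `r_m(N) ≥ r_m(F') + d ([N R_m : N] - [N R_m₀ : N])` for all levels
`m > m₀`; and for `d > 0` the ranks of `N` are bounded if and only if this inequality fails for some
`m > m₀`.

(4) `AbelianDimPart`. Allowed values of `d`: the smallest of the orders of `p` modulo the prime divisors
`ℓ ≠ p` of `[N : F]`; the number `2`, if `F` contains all subfields of `N` which are abelian over `k`; the
order of `p` modulo `ℓ ^ a`, if `N / k` is cyclic of degree divisible by `ℓ ^ a`, `a ≥ 1`, and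
`[N : F] = ℓ`. -/
theorem result (p : ℕ) [Fact p.Prime] (R : ℕ → IntermediateField ℚ Qb) (hR : IsZpTower p R)
    (k F N : IntermediateField ℚ Qb) (h : IsGaloisPair k F N) (m₀ : ℕ)
    (hm₀ : BaseLevel p N m₀) :
    (∃ F', IsPLayer p k F N F') ∧
    (∀ F', IsPLayer p k F N F' → ∀ d, DimGe p k F N d →
      SMainPart p R F N F' d m₀ ∧ SAbelianPart p R F N F' d m₀) ∧
    AbelianDimPart p k F N :=
  final hR h hm₀

end Pool.Agent.Results.MP_a4986b_nt.SplitLayerGapH53
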