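import Pool.Agent.V7H44.MF.Tight

/-!
# MP_a4986b_nt: the vanishing of `μ` for all number fields and tight fields
-/

set_option autoImplicit false

namespace Pool.Agent.Results.MP_a4986b_nt.TightVectorFieldsH44

open Module IntermediateField Pool.Agent.Q60.MU Pool.Agent.V7H44.MF

/-- **The reduction of Iwasawa's conjecture `μ = 0` to tight fields of degree prime to `p`.**

Let `p` be an odd prime, and let `R m` be the subfield of degree `p ^ m` of the field of the roots of
unity of order `p ^ (m + 1)`. Number fields are subfields `F` of the field of algebraic numbers,
of finite degree, and `F ⊔ R m` is the `m`-th layer of the cyclotomic `ℤ_p`-extension of `F` (up to a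
shift). `MuZero p R F` says that the degrees of the maximal unramified abelian extensions of exponent
`p` of the fields `F ⊔ R m` are bounded; by class field theory these are the orders of the groups
`Cl(F ⊔ R m) / p`, and they are bounded if and only if `X(F_cyc)` is finitely generated over `ℤ_p`,
that is, `μ = 0`. No hypothesis is made on the decomposition of primes in the tower.

A field `F` is *tight* if for some irreducible representation `S` of `Gal(ℚ^al/ℚ)` over `𝔽_p` with
finite image there are nonzero vectors fixed by `Gal(ℚ^al/F)`, and all of them generate `F` (their
stabilizers are `Gal(ℚ^al/F)`).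

(1) `μ = 0` for all number fields if and only if `μ = 0` for all tight fields of degree prime to `p`.

(2) For a Galois extension `N / ℚ`: `μ = 0` for `N` if and only if `μ = 0` for all tight subfields of
`N` of degree prime to `p`; then `μ = 0` for all the subfields of `N`.

(3) Given the theorem of Ferrero and Washington (`μ = 0` for abelian fields, stated as a hypothesis),
`μ = 0` for all number fields if and only if `μ = 0` for all the tight fields of degree prime to `p`
which are not abelian.

(4) The tight fields `F` are special: the group `A` of automorphisms of `F` acts without fixed points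
on the nonzero vectors of a space over `𝔽_p`, so its order is prime to `p`, its subgroups of order
`q r` for primes `q` and `r` are cyclic, and it has at most one element of order two. If `F` is
contained in a Galois extension `M / ℚ` of degree `p ^ k` over a Galois extension `L / ℚ` then `F` is
contained in `L` (so the Galois group of the Galois closure of `F` has no nontrivial normal
`p`-subgroup). -/
theorem result (p : ℕ) [Fact p.Prime] (hp2 : p ≠ 2) (R : ℕ → IntermediateField ℚ Qb)
    (hR : IsCyclotomicTower p R) :
    (AllZero p R ↔ TightZero p R) ∧
    (∀ N : IntermediateField ℚ Qb, FiniteDimensional ℚ N → IsGalois ℚ N →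
      (MuZero p R N ↔ TightZeroIn p R N) ∧ (TightZeroIn p R N → ∀ F ≤ N, MuZero p R F)) ∧
    (FerreroWashington p R → (AllZero p R ↔ TightZeroNonabelian p R)) ∧
    ∀ F : IntermediateField ℚ Qb, IsTight p F → FiniteDimensional ℚ F ∧
      ActsFreely p (AutGroup F) ∧ SmallGroup p (AutGroup F) ∧ NoPExtension p F := by
  have key : ∀ N : IntermediateField ℚ Qb, FiniteDimensional ℚ N → IsGalois ℚ N →
      TightZeroIn p R N → ∀ F ≤ N, MuZero p R F :=
    fun N hN hNn h F hF => tight_detect hp2 hR N hN hNn (fun E h1 h2 h3 => h E h3 h1 h2) F hF
  have main : AllZero p R ↔ TightZero p R := by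
    constructor
    · exact fun h F hF _ => h F (tight_finite hF)
    · intro h F hF
      obtain ⟨N, hN, hNn, hFN⟩ := exists_closure F hF
      exact key N hN hNn (fun E _ h1 h2 => h E h1 h2) F hFN
  refine ⟨main, fun N hN hNn => ⟨⟨fun h E hE _ _ => mu_down hR N hN hNn h E hE,
    fun h => key N hN hNn h N le_rfl⟩, key N hN hNn⟩, fun hFW => ?_, fun F hF => ?_⟩
  · rw [main]
    constructor
    · exact fun h F h1 h2 _ => h F h1 h2
    · intro h F h1 h2
      by_cases hab : IsAbelianField F
      · exact hFW F (tight_finite h1) hab
      · exact h F h1 h2 hab
  · have hfd := tight_finite hF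
    have hfin : Finite (AutGroup F) := inferInstanceAs (Finite (F ≃ₐ[ℚ] F))
    exact ⟨hfd, tight_free hF, small_of_free (tight_free hF),
      fun L M hM hL hMg hLM hFM k hk => tight_p hF L M hM hL hMg hLM hFM hk⟩

end Pool.Agent.Results.MP_a4986b_nt.TightVectorFieldsH44
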